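import Mathlib
import Pool.Agent.H44.SJ2

namespace Pool.Agent.Results.MP_b1e97f_co.Q1False

open Pool.Agent.H44.SJ

theorem result :
    (∀ n : ℕ, BddAbove (feas (sprod (cube n) (cube n)))) ∧
    ∀ C : ℝ, 0 < C → ∃ n : ℕ, 2 ≤ n ∧ (n : ℝ) ^ C < theta' (sprod (cube n) (cube n)) := by
  refine ⟨fun n => feas_bdd _, fun C _ => ?_⟩
  obtain ⟨n, hn, s, hs, h⟩ := main ⌈C⌉₊
  refine ⟨n, hn, lt_of_le_of_lt ?_ (h.trans_le (le_theta hs))⟩
  rw [← Real.rpow_natCast]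
  exact Real.rpow_le_rpow_of_exponent_le (by exact_mod_cast (by omega : 1 ≤ n)) (Nat.le_ceil C)

end Pool.Agent.Results.MP_b1e97f_co.Q1False
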